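import Pool.Agent.H16.Hs

set_option autoImplicit false

namespace Pool.Agent.Results.MP_9297ae_an.Chaos

open Filter Topology Pool.Agent.H16.Hs

/-- Index `i` stands for `x_{i-2}`. -/
theorem result : ∃ B : ℝ, 0 < B ∧ ∃ x : ℕ → ℝ, (∀ n, 0 < x n) ∧
    (∀ n, x (n + 3) = x n / (B * x (n + 2) + x n)) ∧
    ¬ Tendsto x atTop (𝓝 (1 / (B + 1))) ∧
    ∀ (p : ℕ → ℝ) (k : ℕ), 1 ≤ k → (∀ n, p (n + k) = p n) →
      ¬ Tendsto (fun n => x n - p n) atTop (𝓝 0) := by
  obtain ⟨ε, e0, e1, H⟩ := horse'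
  obtain ⟨z, η, η0, z0, z1, z2⟩ := H (fun a _ c => ε + a / c)
    (by fun_prop (disch := exact fun _ h => h.2.2.ne')) (fun a _ b _ c _ => by positivity)
    fun a ha b _ c hc => by
      have : 0 ≤ a / c := div_nonneg ((sq_nonneg _).trans ha.1) ((sq_nonneg _).trans hc.1)
      constructor <;> linarith
  have zp : ∀ n, 0 < z n := fun n => (by positivity : 0 < ε ^ 2).trans_le (z1 n).1
  have key := np (x := fun n => ε / z n) (η := ε * η * ε ^ 4 * ε ^ 4) (by positivity)
    fun k hk N => (z2 k hk N).imp fun n ⟨a, b⟩ => ⟨a, 46, by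
      have c := zp n
      have d := zp (n + 46 * k)
      rw [abs_sub_comm]
      refine le_trans ?_ (le_abs_self _)
      rw [show ε / z (n + 46 * k) - ε / z n =
        ε * (z n - z (n + 46 * k)) * (z n)⁻¹ * (z (n + 46 * k))⁻¹ by field_simp]
      have : 0 < z n - z (n + 46 * k) := by linarith
      gcongr
      · exact le_inv_of_le_inv₀ c (z1 _).2
      · exact le_inv_of_le_inv₀ d (z1 _).2⟩
  refine ⟨1 / ε, by positivity, fun n => ε / z n, fun n => div_pos e0 (zp n), fun n => ?_,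
    fun h => key (fun _ => _) 1 le_rfl (fun _ => rfl) (tendsto_sub_nhds_zero_iff.2 h), key⟩
  have := zp n
  have := zp (n + 2)
  simp only [z0]; field_simp; ring

end Pool.Agent.Results.MP_9297ae_an.Chaos
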